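import Pool.Agent.NNe.Chk
import Pool.Agent.NNe.Slots

set_option linter.all false
set_option maxRecDepth 1000000
namespace Pool.Agent.NNr.R11_5_8_9

open Pool.Agent.NNe

noncomputable def SI0_0 : Nat := (nat_lit 0x300c0300c0300c02008020080200802004010040100000)
noncomputable def SW0_0 : Nat := (nat_lit 0x48022010006001400200f0058028008003001000001c009004001c01a006)
noncomputable def RV0_0 : Nat := (nat_lit 0x28600520400818200a0880ad0880b508801508803f20401618201f08802d182021100002088034088057088047182028100007088076088081)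
noncomputable def CO0_0 : Nat := (nat_lit 0x2a80302a80202a80102a7440297840290c40269c40265420265410255840255810255800251c4016ac4016644016641016640012b04012744)
noncomputable def Y0_0_0_1 : Nat := (nat_lit 0xf0000000006000000000f0000000006)
noncomputable def Y0_0_2_3 : Nat := (nat_lit 0x3f000000000000000000070000000000000000000f000000000e000000003c000000000c000000000c000000000c000000001c0000000000000000003c0000000000)
noncomputable def C0_0 : Cd := (Cd.mk (nat_lit 19) (nat_lit 5) (nat_lit 1040) SI0_0 SW0_0 RV0_0 CO0_0 (Sl.cons (Sd.mk (nat_lit 4) (nat_lit 4) (nat_lit 0) (nat_lit 2) (Sb.cons (nat_lit 8) (nat_lit 0) (nat_lit 2) Sb.nil) (Bl.r Y0_0_0_1 (nat_lit 1) Bl.nil)) (Sl.cons (Sd.mk (nat_lit 5) (nat_lit 4) (nat_lit 2) (nat_lit 4) (Sb.cons (nat_lit 8) (nat_lit 0) (nat_lit 4) Sb.nil) (Bl.c Y0_0_0_1 (nat_lit 4) (nat_lit 0) Bl.nil)) (Sl.cons (Sd.mk (nat_lit 9) (nat_lit 8) (nat_lit 6) (nat_lit 7) (Sb.cons (nat_lit 4) (nat_lit 0) (nat_lit 4) (Sb.cons (nat_lit 8) (nat_lit 4) (nat_lit 3) Sb.nil)) (Bl.r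 Y0_0_2_3 (nat_lit 3) Bl.nil)) (Sl.cons (Sd.mk (nat_lit 10) (nat_lit 8) (nat_lit 13) (nat_lit 6) (Sb.cons (nat_lit 4) (nat_lit 0) (nat_lit 2) (Sb.cons (nat_lit 8) (nat_lit 2) (nat_lit 4) Sb.nil)) (Bl.c Y0_0_2_3 (nat_lit 14) (nat_lit 2) Bl.nil)) Sl.nil)))))
noncomputable def SI0_1 : Nat := (nat_lit 0x140501405014050140501405010040100401004010040100300c0300c0300c0300c030080200802008020080200802004010040100401004010040000000000000000000000)
noncomputable def SW0_1 : Nat := (nat_lit 0x1b80d806a02d012006c022010007802006802c015808c04402100d003800e03301500a405002000f806401a006019009c03c01800b8058018005002000c062030017809803a015005802800402e01280700280130090024002000)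
noncomputable def RV0_1 : Nat := (nat_lit 0x28600620400918200b0880ae0880b608801608800f28600818200f08801208804020401718202008802e18202210000308803508803c08803108805808804818202910000818202b10000a08804d08805408804a08807708808208808a28600020400018200008809208800020400318200308805e28600d18202f0880a90880b108806618203510001008806308807208807d08808688801fa0400c98201208808ea04010982016)
noncomputable def CO0_1 : Nat := (nat_lit 0x2a80302a80202a80102a7440297840290c40288840288830288810280c40269c40265420265410255840255810255800251c40249c40241c4016ac40166440166410166400156810156800152c4014ac40142c4012b04012744011784011003011002011001010b8401004401004201004100aa0400aa0300aa0100a7440097840092c4008a81008a800082c4002b04002744001784001104001102001101000b84000142000141)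
noncomputable def Y0_1_1_0 : Nat := (nat_lit 0x1ff00000000120000000000000000000000000001e4000000000000000001ff000000000000000001ff000000000000000001ff000000000000000001e0000000000000000001e800000001c800000001f80000000000)
noncomputable def Y0_1_2_3 : Nat := (nat_lit 0x1ff000000000000000001ff000000000000000001e30000000000000000000000000000000000000183000000008000000001a3000000000000000001ff000000000000000001ff00000000280000000187000000008000000001af0000000028)
noncomputable def Y0_1_4_5 : Nat := (nat_lit 0x3b0000000000000000003900000000190000000039000000000000000001fb00000001000000000079000000000000000000fb000000000800000001fb000000010000000001fb000000010000000001fb0000000100)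
noncomputable def C0_1 : Cd := (Cd.mk (nat_lit 56) (nat_lit 6) (nat_lit 546) SI0_1 SW0_1 RV0_1 CO0_1 (Sl.cons (Sd.mk (nat_lit 0) (nat_lit 0) (nat_lit 0) (nat_lit 9) (Sb.cons (nat_lit 0) (nat_lit 0) (nat_lit 3) (Sb.cons (nat_lit 4) (nat_lit 3) (nat_lit 4) (Sb.cons (nat_lit 8) (nat_lit 7) (nat_lit 2) Sb.nil))) (Bl.c Y0_1_1_0 (nat_lit 18) (nat_lit 1) Bl.nil)) (Sl.cons (Sd.mk (nat_lit 2) (nat_lit 0) (nat_lit 9) (nat_lit 9) (Sb.cons (nat_lit 0) (nat_lit 0) (nat_lit 3) (Sb.cons (nat_lit 4) (nat_lit 3) (nat_lit 2) (Sb.cons (nat_lit 8) (nat_lit 5) (nat_lit 4) Sb.nil))) (Bl.r Y0_1_1_0 (nat_lit 0) Bl.nil)) (Sl.cons (Sd.mk (nat_lit 4) (nat_lit 4) (nat_lit 18) (nat_lit 10) (Sb.cons (nat_lit 0) (nat_lit 0) (nat_lit 4) (Sb.cons (nat_lit 4) (nat_lit 4) (nat_lit 4) (Sb.cons (nat_lit 8) (nat_lit 8) (nat_lit 2) Sb.nil))) (Bl.r Y0_1_2_3 (nat_lit 3) Bl.nil)) (Sl.cons (Sd.mk (nat_lit 5) (nat_lit 4) (nat_lit 28) (nat_lit 9) (Sb.cons (nat_lit 0) (nat_lit 0) (nat_lit 2) (Sb.cons (nat_lit 4) (nat_lit 2) (nat_lit 3)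 (Sb.cons (nat_lit 8) (nat_lit 5) (nat_lit 4) Sb.nil))) (Bl.c Y0_1_2_3 (nat_lit 20) (nat_lit 2) Bl.nil)) (Sl.cons (Sd.mk (nat_lit 9) (nat_lit 8) (nat_lit 37) (nat_lit 9) (Sb.cons (nat_lit 0) (nat_lit 0) (nat_lit 2) (Sb.cons (nat_lit 4) (nat_lit 2) (nat_lit 4) (Sb.cons (nat_lit 8) (nat_lit 6) (nat_lit 3) Sb.nil))) (Bl.r Y0_1_4_5 (nat_lit 5) Bl.nil)) (Sl.cons (Sd.mk (nat_lit 10) (nat_lit 8) (nat_lit 46) (nat_lit 10) (Sb.cons (nat_lit 0) (nat_lit 0) (nat_lit 4) (Sb.cons (nat_lit 4) (nat_lit 4) (nat_lit 2) (Sb.cons (nat_lit 8) (nat_lit 6) (nat_lit 4) Sb.nil))) (Bl.c Y0_1_4_5 (nat_lit 18) (nat_lit 4) Bl.nil)) Sl.nil)))))))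
noncomputable def SI0_2 : Nat := (nat_lit 0xc0300c0300c02008020080200802004010040100400000000000000000)
noncomputable def SW0_2 : Nat := (nat_lit 0xb805802400b0030054022010005001400800300a003c012008001004c01c00d006001c002000)
noncomputable def RV0_2 : Nat := (nat_lit 0x18202c10000b08804e08805508804b08808b2040011820010880930880012040041820040880b2088067182036100011088064088087888020a0400d98201308808fa04011982017)
noncomputable def CO0_2 : Nat := (nat_lit 0x156810156800152c4014ac40142c4011784011002011001010b840100440100420100410097840092c4008a81008a800082c4001784001104001102001101000b84000142000141)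
noncomputable def Y0_2_1_0 : Nat := (nat_lit 0x6d0000000020000000006d000000004d0000000064000000002000000000640000000000000000006d000000004d)
noncomputable def Y0_2_2_3 : Nat := (nat_lit 0x1f00000000070000000000000000000000000000070000000007000000001f0000000007000000001f00000000170000000000000000000000000000070000000007)
noncomputable def C0_2 : Cd := (Cd.mk (nat_lit 24) (nat_lit 7) (nat_lit 52) SI0_2 SW0_2 RV0_2 CO0_2 (Sl.cons (Sd.mk (nat_lit 0) (nat_lit 0) (nat_lit 0) (nat_lit 7) (Sb.cons (nat_lit 0) (nat_lit 0) (nat_lit 3) (Sb.cons (nat_lit 4) (nat_lit 3) (nat_lit 4) Sb.nil)) (Bl.c Y0_2_1_0 (nat_lit 10) (nat_lit 1) Bl.nil)) (Sl.cons (Sd.mk (nat_lit 2) (nat_lit 0) (nat_lit 7) (nat_lit 5) (Sb.cons (nat_lit 0) (nat_lit 0) (nat_lit 3) (Sb.cons (nat_lit 4) (nat_lit 3) (nat_lit 2) Sb.nil)) (Bl.r Y0_2_1_0 (nat_lit 0) Bl.nil)) (Sl.cons (Sd.mk (nat_lit 4) (nat_lit 4) (nat_lit 12) (nat_lit 7) (Sb.cons (nat_lit 0) (nat_lit 0) (nat_lit 4) (Sb.cons (nat_lit 4) (nat_lit 4) (nat_lit 3) Sb.nil)) (Bl.r Y0_2_2_3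 (nat_lit 3) Bl.nil)) (Sl.cons (Sd.mk (nat_lit 5) (nat_lit 4) (nat_lit 19) (nat_lit 5) (Sb.cons (nat_lit 0) (nat_lit 0) (nat_lit 2) (Sb.cons (nat_lit 4) (nat_lit 2) (nat_lit 3) Sb.nil)) (Bl.c Y0_2_2_3 (nat_lit 14) (nat_lit 2) Bl.nil)) Sl.nil)))))
noncomputable def SI0_3 : Nat := (nat_lit 0x300c03008020040100401004010000000000)
noncomputable def SW0_3 : Nat := (nat_lit 0x24010003003800801c00d005801800a0010060028008000)
noncomputable def RV0_3 : Nat := (nat_lit 0x8801018201008801308803d08803208805f1820300880aa18203710001208806508807308807e088090982018)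
noncomputable def CO0_3 : Nat := (nat_lit 0x288840288810280c40249c40241c400aa0400aa0100a744008a81008a800082c4002b04002744000b84000141)
noncomputable def Y0_3_1_0 : Nat := (nat_lit 0x20000000000000000000000000000000000000002000000000000000000000000000000000000000e0000000000000000000e0000000000)
noncomputable def Y0_3_2_3 : Nat := (nat_lit 0x5000000000000000000050000000000)
noncomputable def C0_3 : Cd := (Cd.mk (nat_lit 15) (nat_lit 8) (nat_lit 263) SI0_3 SW0_3 RV0_3 CO0_3 (Sl.cons (Sd.mk (nat_lit 0) (nat_lit 0) (nat_lit 0) (nat_lit 4) (Sb.cons (nat_lit 0) (nat_lit 0) (nat_lit 2) (Sb.cons (nat_lit 8) (nat_lit 2) (nat_lit 2) Sb.nil)) (Bl.c Y0_3_1_0 (nat_lit 12) (nat_lit 1) Bl.nil)) (Sl.cons (Sd.mk (nat_lit 2) (nat_lit 0) (nat_lit 4) (nat_lit 6) (Sb.cons (nat_lit 0) (nat_lit 0) (nat_lit 3) (Sb.cons (nat_lit 8) (nat_lit 3) (nat_lit 3) Sb.nil)) (Bl.r Y0_3_1_0 (nat_lit 0) Bl.nil)) (Sl.cons (Sd.mk (nat_lit 9) (nat_lit 8) (nat_lit 10) (nat_lit 2) (Sb.cons (nat_lit 0) (nat_lit 0) (nat_lit 2) Sb.nil)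 (Bl.r Y0_3_2_3 (nat_lit 3) Bl.nil)) (Sl.cons (Sd.mk (nat_lit 10) (nat_lit 8) (nat_lit 12) (nat_lit 3) (Sb.cons (nat_lit 0) (nat_lit 0) (nat_lit 3) Sb.nil) (Bl.c Y0_3_2_3 (nat_lit 4) (nat_lit 2) Bl.nil)) Sl.nil)))))
noncomputable def SI0_4 : Nat := (nat_lit 0x200802008020080200802008020080200802008020080200802008020080200701c0701c0701c0701c0701c0701c06018060180601806018060180601806018060180601806018060180601806018060180601806018060180601806018060140501405014050140501405014050140501405014050140401004010040100401004010040100401004010040100401004010040100400c0300c0300c0300c0300c0300c0300c0300c0300c0300c0300c0300c0300c02008020080200802008020080200801004010040100401004010040100401004010040100401000000000000000000000000000000)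
noncomputable def SW0_4 : Nat := (nat_lit 0x3781b80b405c02c81600ae05b02b01540a8041021810007e04201f00f407802a014807803a00b00501b40d805302900ec074028013807003600900401a40d606803381980d4065032018c09e05102701340a004c025812806e03901b00d406803801980c8062026012806003401700b0054032014009804800e00605d82e81440a104a824412c094049824812008f04700c0048011008003c00a0b805a02e416e0b605a82cc1640b1050027c118089046822c114088043821805e02e016808c01c00405782b01600ae05682ac1540a904f0274108080042820c10408103f81f80fa062024812008e00d00182a014e09c04d81f00f60610230030004001000029814a09a04c81e40ea07a03c01dc0ec07403981c80c005f02f0114058022052028c13009703881c00ba044015808404001f)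
noncomputable def RV0_4 : Nat := (nat_lit 0x8806f08801e0880b008806d08806218203310000e08801c08800d20400b18200d0880b908806c18203410000f08801b08800e28600718200e08806b08801a08806e08801d08806a08801908805c08804308805308803b08805208803a08805108803908805b08804208805008803808807a88802a888022a0400f98201508800b286001204002182002088085888028a0401298201908800908800320400618200608808d88802788802398201a90000008800808800428600218200788802608800708809688802988802498201b90000108800a0880052860031820088880250880060880bb0880a60880b80880af0880a80880a408801808800c20400a18200c2860042040071820090880b70880170880112860091820110880140880a208809a08804108803018202410000508802c20401418201d0880a008809e08809c08809808803720401518201e08802b20401318201c08802f18202310000408803608803e0880330880a108809908805a18202d10000c08804528600b18202608809f08809d08809b08809708804f08804618202710000608804428600a18202508805908804918202a10000908805608804c08809508807908808c08808408807c0880710880780880830880940880022040051820050880ba0880a50880b40880ac0880a70880a308806908806118203210000d08805d28600c18202e08806028600e1820310880ab0880b308806808809108807508808908808008807b08807008807408807f088088888021a0400e982014)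
noncomputable def CO0_4 : Nat := (nat_lit 0x3aac403a8c403a74403a6c403a64403a64103a64003a4c403a44403a44203a4410397840396c40396810396800394c40394840394830394810392c40390c4038ac40388c40382c40380c4036ac40369c40366c40365c40356c40355c40352c40351c4034ac40349c40342c40341c4032b040329c40329040329020329010328c40328030328020328010327440325c40325420325410324c40324440324420324410317840315c40315840315810315800314c40314840314830314810311c40310c4030b840309c40309840309810309800308c40308840308830308810301c40300c402bb8402bb0402b78402b74402b34402b30402b0c402b04402b04202b04102b00302b00202b0010297840290c40288840288830288810280c4027b84027b040279c40279840279810279800279040279020279010277840277440273440273040271c40271420271410271040271020271010255840255810255800251c40249c40241c4017b84017b04017ac4017a81017a80017a04017a03017a010177840177440173440173040172c4017244017241017240017204017203017201016ac4016644016641016640014ac40142c4013b84013b04013784013744013344013304012b04012744010b8401004401004201004100bb8400bb0400b78400b74400b34400b30400b2c400b24400b24100b24000b20400b20300b20100aa0400aa0300aa0100a7440097840092c4003b84003b04003784003744003344003304002b04002744001784001104001102001101)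
noncomputable def Y0_4_1_0 : Nat := (nat_lit 0x3f0000000039000000003f000000003b000000003f0000000039000000003f0000000003000000003f0000000003000000003f000000003b000000003f0000000000000000003f0000000000000000003f0000000002000000003f0000000000000000003f0000000000000000003c0000000000000000003f00000000020000000fcf00000005c00000000fcc00000000000000000fcf0000000fc20000000fcf0000000fc00000000ff00000000fc00000000ff00000000000)
noncomputable def Y0_4_2_3 : Nat := (nat_lit 0x3f0000000004000000003f0000000014000000003f0000000004000000003f0000000014000000003f0000000014000000003f00000000140001ffffc300000000000001ffffc300000000000001fffffc00000000000001fffffc00000000000001fbff7c00000a0d580001fbff7c0000000000)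
noncomputable def Y0_4_4_5 : Nat := (nat_lit 0x3f0000000000000000003f0000000000000000003f0000000000000000003f0000000000000000003b0000000000000000003f0000000000000000003f0000000000000000003b000000002a000000003b0000000000000000003f0000000000000000003f0000000000000000003f0000000000000000003f0000000000000000003f0000000000000000003b000000002a000000003b0000000000000000003f0000000000000000003b000000002a000000003b0000000000000007ffcf000002e480000007fecb0000000480000007ffcf000007e000000007ffcf000002e000000007fff0000002e000000007fff0000002e000)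
noncomputable def Y0_4_6_6 : Nat := (nat_lit 0x10120200000000000000000000000000000000000000000000000000000000000000000000000000000000000000000000003e17c200000200400000101202000000000000001012020000101202000010120200000000000000101202000000000000000000000000000000000000000000000000000000000000000000000000003e17c2000002004000001012020000101202000010120200001012020000101202000010120220100002020000000000000000000000000000000000000000000000000000000000000000000000000000000000000000007c3c0007c20808000040201000020220100002022010000202000000000020100002022010000202000000000000000000007c3c0007c2080800004020101010000000000000000000000000000000000000000000000000000000000000000000000000000000000000000000007c3c3e10000808020000201010100020101010002010101000000000000020101010002010101000000000000000000000007c3c3e10000808020000)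
noncomputable def Y0_4_7_7 : Nat := (nat_lit 0xaa00000000000000000000000000000000000000aa0000000000000000000000000000000000000a0a0000000000000000000000000000000000000a0a0000000000000000000000000000000000000aa00000000000000000000000000000000000000aa00000000000)
noncomputable def Y0_4_8_8 : Nat := (nat_lit 0x23d50000000100000000000000000000000000000215000000000000000023d5000000010000000002150000000215000000021500000000000000000215000000021500000000000000000000000000000000000000000000000000000000000000000000000000000000000082000500000000000000c3c00500000180000000820005000000000000008200050000820005000000000000000000000000000000000000000000000000000000000000000000000000000000000000c3c0050000018000000000000000000000000000c3e3d00000018100000000000000000000000000c3e3d0000001810000000000000000000000)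
noncomputable def C0_4 : Cd := (Cd.mk (nat_lit 188) (nat_lit 4) (nat_lit 4369) SI0_4 SW0_4 RV0_4 CO0_4 (Sl.cons (Sd.mk (nat_lit 0) (nat_lit 0) (nat_lit 0) (nat_lit 12) (Sb.cons (nat_lit 4) (nat_lit 0) (nat_lit 4) (Sb.cons (nat_lit 8) (nat_lit 4) (nat_lit 2) (Sb.cons (nat_lit 12) (nat_lit 6) (nat_lit 6) Sb.nil))) (Bl.c Y0_4_1_0 (nat_lit 38) (nat_lit 1) Bl.nil)) (Sl.cons (Sd.mk (nat_lit 2) (nat_lit 0) (nat_lit 12) (nat_lit 19) (Sb.cons (nat_lit 4) (nat_lit 0) (nat_lit 2) (Sb.cons (nat_lit 8) (nat_lit 2) (nat_lit 4) (Sb.cons (nat_lit 12) (nat_lit 6) (nat_lit 13) Sb.nil))) (Bl.r Y0_4_1_0 (nat_lit 0) Bl.nil)) (Sl.cons (Sd.mk (nat_lit 4) (nat_lit 4) (nat_lit 31) (nat_lit 12) (Sb.cons (nat_lit 0) (nat_lit 0) (nat_lit 4) (Sb.cons (nat_lit 8) (nat_lit 4) (nat_lit 2) (Sb.cons (nat_lit 12) (nat_lit 6) (nat_lit 6) Sb.nil))) (Bl.r Y0_4_2_3 (nat_lit 3) Bl.nil)) (Sl.cons (Sd.mk (nat_lit 5) (nat_lit 4) (nat_lit 43) (nat_lit 25) (Sb.cons (nat_lit 0) (nat_lit 0) (nat_lit 2) (Sb.cons (nat_lit 8) (nat_lit 2) (nat_lit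 4) (Sb.cons (nat_lit 12) (nat_lit 6) (nat_lit 19) Sb.nil))) (Bl.c Y0_4_2_3 (nat_lit 24) (nat_lit 2) Bl.nil)) (Sl.cons (Sd.mk (nat_lit 9) (nat_lit 8) (nat_lit 68) (nat_lit 25) (Sb.cons (nat_lit 0) (nat_lit 0) (nat_lit 2) (Sb.cons (nat_lit 4) (nat_lit 2) (nat_lit 4) (Sb.cons (nat_lit 12) (nat_lit 6) (nat_lit 19) Sb.nil))) (Bl.r Y0_4_4_5 (nat_lit 5) Bl.nil)) (Sl.cons (Sd.mk (nat_lit 10) (nat_lit 8) (nat_lit 93) (nat_lit 19) (Sb.cons (nat_lit 0) (nat_lit 0) (nat_lit 4) (Sb.cons (nat_lit 4) (nat_lit 4) (nat_lit 2) (Sb.cons (nat_lit 12) (nat_lit 6) (nat_lit 13) Sb.nil))) (Bl.c Y0_4_4_5 (nat_lit 50) (nat_lit 4) Bl.nil)) (Sl.cons (Sd.mk (nat_lit 12) (nat_lit 12) (nat_lit 112) (nat_lit 39) (Sb.cons (nat_lit 0) (nat_lit 0) (nat_lit 11) (Sb.cons (nat_lit 4) (nat_lit 11) (nat_lit 11) (Sb.cons (nat_lit 8) (nat_lit 22) (nat_lit 17) Sb.nil))) (Bl.r Y0_4_6_6 (nat_lit 6) (Bl.c Y0_4_6_6 (nat_lit 78) (nat_lit 6) Bl.nil))) (Sl.cons (Sd.mk (nat_lit 13) (nat_lit 12) (nat_lit 151) (nat_lit 12) (Sb.cons (nat_lit 0)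 (nat_lit 0) (nat_lit 4) (Sb.cons (nat_lit 4) (nat_lit 4) (nat_lit 4) (Sb.cons (nat_lit 8) (nat_lit 8) (nat_lit 4) Sb.nil))) (Bl.r Y0_4_7_7 (nat_lit 7) (Bl.c Y0_4_7_7 (nat_lit 24) (nat_lit 7) Bl.nil))) (Sl.cons (Sd.mk (nat_lit 14) (nat_lit 12) (nat_lit 163) (nat_lit 25) (Sb.cons (nat_lit 0) (nat_lit 0) (nat_lit 4) (Sb.cons (nat_lit 4) (nat_lit 4) (nat_lit 10) (Sb.cons (nat_lit 8) (nat_lit 14) (nat_lit 11) Sb.nil))) (Bl.r Y0_4_8_8 (nat_lit 8) (Bl.c Y0_4_8_8 (nat_lit 50) (nat_lit 8) Bl.nil))) Sl.nil))))))))))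
noncomputable def CL0 : Cl := (Cl.cons C0_0 (Cl.cons C0_1 (Cl.cons C0_2 (Cl.cons C0_3 (Cl.cons C0_4 Cl.nil)))))
noncomputable def ZL0_0 : Zl := (Zl.cons (nat_lit 0) (nat_lit 0) (nat_lit 2) (Zl.cons (nat_lit 18) (nat_lit 2) (nat_lit 10) (Zl.cons (nat_lit 12) (nat_lit 12) (nat_lit 7) (Zl.cons (nat_lit 0) (nat_lit 0) (nat_lit 0) (Zl.cons (nat_lit 31) (nat_lit 19) (nat_lit 12) Zl.nil)))))
noncomputable def ZZ0 : ZZ := (ZZ.cons ZL0_0 ZZ.nil)
noncomputable def SI1_0 : Nat := (nat_lit 0x8010040100000)
noncomputable def SW1_0 : Nat := (nat_lit 0xa0040008000006002)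
noncomputable def RV1_0 : Nat := (nat_lit 0x18200518200a08801318200b08801b18200e)
noncomputable def CO1_0 : Nat := (nat_lit 0x2a801026541025584025581016644016641)
noncomputable def Y1_0_1_2 : Nat := (nat_lit 0x100000001000000010000)
noncomputable def C1_0 : Cd := (Cd.mk (nat_lit 6) (nat_lit 5) (nat_lit 1040) SI1_0 SW1_0 RV1_0 CO1_0 (Sl.cons (Sd.mk (nat_lit 5) (nat_lit 4) (nat_lit 0) (nat_lit 2) (Sb.cons (nat_lit 8) (nat_lit 0) (nat_lit 2) Sb.nil) Bl.nil) (Sl.cons (Sd.mk (nat_lit 9) (nat_lit 8) (nat_lit 2) (nat_lit 3) (Sb.cons (nat_lit 4) (nat_lit 0) (nat_lit 2) (Sb.cons (nat_lit 8) (nat_lit 2) (nat_lit 1) Sb.nil)) (Bl.r Y1_0_1_2 (nat_lit 2) Bl.nil)) (Sl.cons (Sd.mk (nat_lit 10) (nat_lit 8) (nat_lit 5) (nat_lit 1) (Sb.cons (nat_lit 8) (nat_lit 0) (nat_lit 1) Sb.nil) (Bl.c Y1_0_1_2 (nat_lit 6) (nat_lit 1) Bl.nil)) Sl.nil))))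
noncomputable def SI1_1 : Nat := (nat_lit 0x140501404010040100300c030080200801004000000000000)
noncomputable def SW1_1 : Nat := (nat_lit 0x98018008010006002c00600f0070028012002000804800a011006802000e000)
noncomputable def RV1_1 : Nat := (nat_lit 0x20400608800708800920401108801410000008801608801c10000210000420400020400218200108802110000508802b088030a04009982007a0400c)
noncomputable def CO1_1 : Nat := (nat_lit 0x2a8020288840280c40265420255840255800241c401664401664001568001100201004201004100aa04008a80002b04002744001102001101000142)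
noncomputable def Y1_1_1_0 : Nat := (nat_lit 0x50000001a0000)
noncomputable def Y1_1_2_3 : Nat := (nat_lit 0x400000004000000030000)
noncomputable def Y1_1_4_5 : Nat := (nat_lit 0x30000000400000002000000040000)
noncomputable def C1_1 : Cd := (Cd.mk (nat_lit 20) (nat_lit 6) (nat_lit 546) SI1_1 SW1_1 RV1_1 CO1_1 (Sl.cons (Sd.mk (nat_lit 0) (nat_lit 0) (nat_lit 0) (nat_lit 5) (Sb.cons (nat_lit 0) (nat_lit 0) (nat_lit 1) (Sb.cons (nat_lit 4) (nat_lit 1) (nat_lit 2) (Sb.cons (nat_lit 8) (nat_lit 3) (nat_lit 2) Sb.nil))) (Bl.c Y1_1_1_0 (nat_lit 4) (nat_lit 1) Bl.nil)) (Sl.cons (Sd.mk (nat_lit 2) (nat_lit 0) (nat_lit 5) (nat_lit 2) (Sb.cons (nat_lit 0) (nat_lit 0) (nat_lit 1) (Sb.cons (nat_lit 8) (nat_lit 1) (nat_lit 1) Sb.nil)) (Bl.r Y1_1_1_0 (nat_lit 0) Bl.nil)) (Sl.cons (Sd.mk (nat_lit 4) (nat_lit 4) (nat_lit 7) (nat_lit 3) (Sb.cons (nat_lit 0) (nat_lit 0) (nat_lit 2) (Sb.cons (nat_lit 4) (nat_lit 2) (nat_lit 1) Sb.nil)) (Bl.r Y1_1_2_3 (nat_lit 3) Bl.nil)) (Sl.cons (Sd.mk (nat_lit 5) (nat_lit 4)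 (nat_lit 10) (nat_lit 3) (Sb.cons (nat_lit 4) (nat_lit 0) (nat_lit 1) (Sb.cons (nat_lit 8) (nat_lit 1) (nat_lit 2) Sb.nil)) (Bl.c Y1_1_2_3 (nat_lit 6) (nat_lit 2) Bl.nil)) (Sl.cons (Sd.mk (nat_lit 9) (nat_lit 8) (nat_lit 13) (nat_lit 4) (Sb.cons (nat_lit 0) (nat_lit 0) (nat_lit 1) (Sb.cons (nat_lit 4) (nat_lit 1) (nat_lit 2) (Sb.cons (nat_lit 8) (nat_lit 3) (nat_lit 1) Sb.nil))) (Bl.r Y1_1_4_5 (nat_lit 5) Bl.nil)) (Sl.cons (Sd.mk (nat_lit 10) (nat_lit 8) (nat_lit 17) (nat_lit 3) (Sb.cons (nat_lit 0) (nat_lit 0) (nat_lit 2) (Sb.cons (nat_lit 8) (nat_lit 2) (nat_lit 1) Sb.nil)) (Bl.c Y1_1_4_5 (nat_lit 8) (nat_lit 4) Bl.nil)) Sl.nil)))))))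
noncomputable def SI1_2 : Nat := (nat_lit 0xc0300c0300802008020080100401004000000000000)
noncomputable def SW1_2 : Nat := (nat_lit 0x2200d004001002000c003800c00400f005801800200e005002400a000)
noncomputable def RV1_2 : Nat := (nat_lit 0x18201008801f08802008801e08803318200008803608800018200208803f08802418201308802308803288800e982008088034982009)
noncomputable def CO1_2 : Nat := (nat_lit 0x156810152c4014ac40142c4011784011001010b840100440100410097840092c4008a810082c4001784001104001101000b84000141)
noncomputable def Y1_2_1_0 : Nat := (nat_lit 0x80008001700120008000000170012)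
noncomputable def Y1_2_2_3 : Nat := (nat_lit 0x700070007000000070007000f000700070000)
noncomputable def C1_2 : Cd := (Cd.mk (nat_lit 18) (nat_lit 7) (nat_lit 52) SI1_2 SW1_2 RV1_2 CO1_2 (Sl.cons (Sd.mk (nat_lit 0) (nat_lit 0) (nat_lit 0) (nat_lit 5) (Sb.cons (nat_lit 0) (nat_lit 0) (nat_lit 2) (Sb.cons (nat_lit 4) (nat_lit 2) (nat_lit 3) Sb.nil)) (Bl.c Y1_2_1_0 (nat_lit 8) (nat_lit 1) Bl.nil)) (Sl.cons (Sd.mk (nat_lit 2) (nat_lit 0) (nat_lit 5) (nat_lit 4) (Sb.cons (nat_lit 0) (nat_lit 0) (nat_lit 2) (Sb.cons (nat_lit 4) (nat_lit 2) (nat_lit 2) Sb.nil)) (Bl.r Y1_2_1_0 (nat_lit 0) Bl.nil)) (Sl.cons (Sd.mk (nat_lit 4) (nat_lit 4) (nat_lit 9) (nat_lit 5) (Sb.cons (nat_lit 0) (nat_lit 0) (nat_lit 3) (Sb.cons (nat_lit 4) (nat_lit 3) (nat_lit 2) Sb.nil)) (Bl.r Y1_2_2_3 (nat_lit 3) Bl.nil)) (Sl.cons (Sd.mk (nat_lit 5) (nat_lit 4) (nat_lit 14) (nat_lit 4) (Sb.cons (nat_lit 0) (nat_lit 0) (nat_lit 2) (Sb.cons (nat_lit 4) (nat_lit 2) (nat_lit 2) Sb.nil)) (Bl.c Y1_2_2_3 (nat_lit 10) (nat_lit 2) Bl.nil))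 Sl.nil)))))
noncomputable def C1_3 : Cd := (Cd.mk (nat_lit 0) (nat_lit 8) (nat_lit 263) (nat_lit 0) (nat_lit 0) (nat_lit 0) (nat_lit 0) Sl.nil)
noncomputable def SI1_4 : Nat := (nat_lit 0x1c0701c0701c0701c0701c070180601806018060180601806018060180601805014050140501405014040100401004010040100300c0300c0300c02008020080200401004010040100401000000000000000)
noncomputable def SW1_4 : Nat := (nat_lit 0x500270100060024011006803000a004013009004a02300f807802e016008003c01600a004800c00404102000dc06a03601a002000e03f01980c802a014009801800203e01880c003a01c00d80f407802f017000007603a01680b0056022010806807203801500a403200e)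
noncomputable def RV1_4 : Nat := (nat_lit 0x8802808800d20400808800608802608800b08802708800c08802508800a888012a0400b088005204001a0400d20400408800118200388801008800388801108800418200488800f08800208804108803b08803d08803920400720400508800818200620400f20401020400e08801518200c10000108801808801708801a08801918200d08801d18200f10000308803708802d08802f08802a20400308804008803a08803c08803818201108802218201208803e08803508802c08802e088029088031a0400a)
noncomputable def CO1_4 : Nat := (nat_lit 0x3aac403a8c403a4420394840392c40390c4038ac40388c40382c40380c40329c40329020328c40328020325420324420314840314810311c40310c40309c40308c40308810301c40300c402bb8402bb0402b34402b30402b04202b0020288840288810279020271420271020255840255810255800249c40241c4017a04017204017201016644016641016640013b84013b0401334401330401004200bb8400bb0400b34400b30400b20100aa0400aa0100a744003b84003b04003344003304002744001102)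
noncomputable def Y1_4_1_0 : Nat := (nat_lit 0x2000000030000000100010003000100010001001c0000003d0000003c0000)
noncomputable def Y1_4_2_3 : Nat := (nat_lit 0x10000000500000005000000050000003e0006)
noncomputable def Y1_4_4_5 : Nat := (nat_lit 0x300000003000000030000007c002c000c000c00f000000070000000700000)
noncomputable def Y1_4_6_6 : Nat := (nat_lit 0x5200100000000000520000401200004012000000000000240000000000000024002000404040000000000024000000)
noncomputable def Y1_4_7_7 : Nat := (nat_lit 0x400000000000000000000000000000008000000000000000c000000000000000c0000000000000)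
noncomputable def C1_4 : Cd := (Cd.mk (nat_lit 66) (nat_lit 4) (nat_lit 4369) SI1_4 SW1_4 RV1_4 CO1_4 (Sl.cons (Sd.mk (nat_lit 0) (nat_lit 0) (nat_lit 0) (nat_lit 6) (Sb.cons (nat_lit 4) (nat_lit 0) (nat_lit 1) (Sb.cons (nat_lit 8) (nat_lit 1) (nat_lit 1) (Sb.cons (nat_lit 12) (nat_lit 2) (nat_lit 4) Sb.nil))) (Bl.c Y1_4_1_0 (nat_lit 16) (nat_lit 1) Bl.nil)) (Sl.cons (Sd.mk (nat_lit 2) (nat_lit 0) (nat_lit 6) (nat_lit 8) (Sb.cons (nat_lit 8) (nat_lit 0) (nat_lit 3) (Sb.cons (nat_lit 12) (nat_lit 3) (nat_lit 5) Sb.nil)) (Bl.r Y1_4_1_0 (nat_lit 0) Bl.nil)) (Sl.cons (Sd.mk (nat_lit 4) (nat_lit 4) (nat_lit 14) (nat_lit 5) (Sb.cons (nat_lit 0) (nat_lit 0) (nat_lit 1) (Sb.cons (nat_lit 12) (nat_lit 1) (nat_lit 4) Sb.nil)) (Bl.r Y1_4_2_3 (nat_lit 3) Bl.nil)) (Sl.cons (Sd.mk (nat_lit 5) (nat_lit 4) (nat_lit 19) (nat_lit 6) (Sb.cons (nat_lit 8) (nat_lit 0) (nat_lit 3) (Sb.cons (nat_lit 12) (nat_lit 3) (nat_lit 3) Sb.nil)) (Bl.c Y1_4_2_3 (nat_lit 10) (nat_lit 2) Bl.nil)) (Sl.cons (Sd.mk (nat_lit 9) (nat_lit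 8) (nat_lit 25) (nat_lit 8) (Sb.cons (nat_lit 0) (nat_lit 0) (nat_lit 2) (Sb.cons (nat_lit 4) (nat_lit 2) (nat_lit 3) (Sb.cons (nat_lit 12) (nat_lit 5) (nat_lit 3) Sb.nil))) (Bl.r Y1_4_4_5 (nat_lit 5) Bl.nil)) (Sl.cons (Sd.mk (nat_lit 10) (nat_lit 8) (nat_lit 33) (nat_lit 8) (Sb.cons (nat_lit 0) (nat_lit 0) (nat_lit 2) (Sb.cons (nat_lit 12) (nat_lit 2) (nat_lit 6) Sb.nil)) (Bl.c Y1_4_4_5 (nat_lit 16) (nat_lit 4) Bl.nil)) (Sl.cons (Sd.mk (nat_lit 12) (nat_lit 12) (nat_lit 41) (nat_lit 15) (Sb.cons (nat_lit 0) (nat_lit 0) (nat_lit 5) (Sb.cons (nat_lit 4) (nat_lit 5) (nat_lit 4) (Sb.cons (nat_lit 8) (nat_lit 9) (nat_lit 6) Sb.nil))) (Bl.r Y1_4_6_6 (nat_lit 6) (Bl.c Y1_4_6_6 (nat_lit 30) (nat_lit 6) Bl.nil))) (Sl.cons (Sd.mk (nat_lit 14) (nat_lit 12) (nat_lit 56) (nat_lit 10) (Sb.cons (nat_lit 0) (nat_lit 0) (nat_lit 4) (Sb.cons (nat_lit 4) (nat_lit 4) (nat_lit 3) (Sb.cons (nat_lit 8) (nat_lit 7) (nat_lit 3) Sb.nil))) (Bl.r Y1_4_7_7 (nat_lit 7) (Bl.c Y1_4_7_7 (nat_lit 20) (nat_lit 7) Bl.nil)))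 Sl.nil)))))))))
noncomputable def CL1 : Cl := (Cl.cons C1_0 (Cl.cons C1_1 (Cl.cons C1_2 (Cl.cons C1_3 (Cl.cons C1_4 Cl.nil)))))
noncomputable def AL1_0 : Nat := (nat_lit 0x1c71b)
noncomputable def A41_0 : Nat := (nat_lit 0x10718)
noncomputable def IX1_0 : Nat := (nat_lit 0x50000000000000000000000000000000000000000000000000000000000000000000000000000040000000000003000000000000200000000000000000000000000000000000000000000000000010000000000000000000000000000000000000000000000000000)
noncomputable def OL1_0 : Nat := (nat_lit 0x20002800480080008000c)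
noncomputable def AL1_1 : Nat := (nat_lit 0x4655ea809e05da)
noncomputable def A41_1 : Nat := (nat_lit 0x42552a808e059a)
noncomputable def IX1_1 : Nat := (nat_lit 0x1300000000000000000000000000000000000000000000000000000000000000012000000000000000000000000000000000000011000000000000000000000000100000000000000000000000000f0000000000000000000000000e00000000000000000000000000000000000000d0000000000000000000000000c0000000000000000000000000b0000000000000000000000000a0000000000000000000000000000000000000000000000000000000000000000000000000000000000000000000000000000000900000000000000000000000000000000000000000000000000080000000000007000000000000600000000000000000000000000000000000000000000000000000000000000000000000000000000000000000050000000000000000000000000400000000000030000000000000000000000000000000000000020000000000001000000000000000000000000000000000000000)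
noncomputable def OL1_1 : Nat := (nat_lit 0x1b0031005c00b00150028004a008c010801f002e004c009001100140020003800400060004)
noncomputable def AL1_2 : Nat := (nat_lit 0xbddeed)
noncomputable def A41_2 : Nat := (nat_lit 0xbddeed)
noncomputable def IX1_2 : Nat := (nat_lit 0x1100000000000000000000000010000000000000f000000000000e000000000000d0000000000000000000000000c000000000000b000000000000a00000000000000000000000009000000000000800000000000070000000000006000000000000000000000000050000000000004000000000000300000000000000000000000002000000000000100000000000000000000000000)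
noncomputable def OL1_2 : Nat := (nat_lit 0x2e005400a001300240040007800e0018002c0050009000e0018002800300040000)
noncomputable def AL1_3 : Nat := (nat_lit 0)
noncomputable def A41_3 : Nat := (nat_lit 0)
noncomputable def IX1_3 : Nat := (nat_lit 0)
noncomputable def OL1_3 : Nat := (nat_lit 0)
noncomputable def AL1_4 : Nat := (nat_lit 0xdbcb9f8002a9bd3ba77fc9540204bf0506ae7e17e46effb)
noncomputable def A41_4 : Nat := (nat_lit 0xc0409f8002a8880ba27cc9140204bb0400ae6616606ccd2)
noncomputable def IX1_4 : Nat := (nat_lit 0x4100000000000400000000000000000000000000000000000000000000000000000000000000000000000000000000000000000000000000000003f000000000000000000000000000000000000000000000000000000000000000000000000000000000000000003e00000000000000000000000000000000000003d000000000003c000000000003b000000000003a00000000000390000000000038000000000000000000000000000000000000000000000000000000000000000000000000000000000000000000000000000000000000000000000000000000000000000000000000000000000000000000000000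00000000000037000000000000000000000000360000000000000000000000003500000000000000000000000034000000000000000000000000000000000000000000000000003300000000000000000000000000000000000000000000000000320000000000000000000000000000000000000000000000000000000000000000000000000000000000000000000000000000003100000000000000000000000030000000000002f000000000002e0000000000000000000000002d000000000000000000000000000000000000000000000000002c00000000000000000000000000000000000002b000000000002a0000000000029000000000002800000000000270000000000000000000000000000000000000260000000000025000000000000000000000000000000000000024000000000000000000000000000000000000023000000000000000000000000000000000000000000000000002200000000000000000000000021000000000000000000000000000000000000000000000000000000000000000000000000000000000000000000000000000000000000000000020000000000000000000000000000000000000000000000000000000000000000000000000000000000000000001f00000000000000000000000000000000000001e0000000000000000000000001d000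000000001c000000000001b0000000000000000000000001a0000000000019000000000000000000000000000000000000000000000000000000000000000000000000000018000000000000000000000000000000000000000000000000000000000000000000000000000000000000000000000000000000000000000000000000000000000000000000000170000000000000000000000001600000000000000000000000015000000000001400000000000130000000000000000000000000000000000000120000000000011000000000000000000000000000000000000010000000000000f0000000000000000000000000000000000000000000000000000000000000000e0000000000000000000000000d000000000000c00000000000000000000000000000000000000b000000000000a0000000000000000000000000000000000000000000000000000000000000000000000000000000000000000009000000000000800000000000000000000000007000000000000600000000000000000000000000000000000000500000000000040000000000000000000000000000000000000030000000000002000000000000000000000000010000000000000000000000000000000000000000000000000000)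
noncomputable def OL1_4 : Nat := (nat_lit 0x17602e805900ab0150029c05300a50148028c04a80930122023c045808700fe01f403e007b00f201d4039007100e001bc037006b00d4019c032006000bc0154027004b009201200238045008800f80198031005e00b8016802a005200980128020003c007400d001900240044007800e00160028003800600080004)
noncomputable def TL1 : Tl := (Tl.cons (Tr.mk AL1_0 A41_0 IX1_0 OL1_0) (Tl.cons (Tr.mk AL1_1 A41_1 IX1_1 OL1_1) (Tl.cons (Tr.mk AL1_2 A41_2 IX1_2 OL1_2) (Tl.cons (Tr.mk AL1_3 A41_3 IX1_3 OL1_3) (Tl.cons (Tr.mk AL1_4 A41_4 IX1_4 OL1_4) Tl.nil)))))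
noncomputable def ZL1_0 : Zl := (Zl.cons (nat_lit 0) (nat_lit 0) (nat_lit 6) (Zl.cons (nat_lit 0) (nat_lit 0) (nat_lit 20) (Zl.cons (nat_lit 0) (nat_lit 0) (nat_lit 18) (Zl.cons (nat_lit 0) (nat_lit 0) (nat_lit 0) (Zl.cons (nat_lit 0) (nat_lit 0) (nat_lit 66) Zl.nil)))))
noncomputable def ZZ1 : ZZ := (ZZ.cons ZL1_0 ZZ.nil)
noncomputable def C2_0 : Cd := (Cd.mk (nat_lit 0) (nat_lit 5) (nat_lit 1040) (nat_lit 0) (nat_lit 0) (nat_lit 0) (nat_lit 0) Sl.nil)
noncomputable def C2_1 : Cd := (Cd.mk (nat_lit 0) (nat_lit 6) (nat_lit 546) (nat_lit 0) (nat_lit 0) (nat_lit 0) (nat_lit 0) Sl.nil)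
noncomputable def SI2_2 : Nat := (nat_lit 0x8020040100000)
noncomputable def SW2_2 : Nat := (nat_lit 0x60010028000008002)
noncomputable def RV2_2 : Nat := (nat_lit 0x88007088000088005088004888001088006)
noncomputable def CO2_2 : Nat := (nat_lit 0x10b840100440092c40082c4001104000b84)
noncomputable def Y2_2_1_0 : Nat := (nat_lit 0x208)
noncomputable def C2_2 : Cd := (Cd.mk (nat_lit 6) (nat_lit 7) (nat_lit 52) SI2_2 SW2_2 RV2_2 CO2_2 (Sl.cons (Sd.mk (nat_lit 0) (nat_lit 0) (nat_lit 0) (nat_lit 2) (Sb.cons (nat_lit 0) (nat_lit 0) (nat_lit 1) (Sb.cons (nat_lit 4) (nat_lit 1) (nat_lit 1) Sb.nil)) (Bl.c Y2_2_1_0 (nat_lit 4) (nat_lit 1) Bl.nil)) (Sl.cons (Sd.mk (nat_lit 2) (nat_lit 0) (nat_lit 2) (nat_lit 2) (Sb.cons (nat_lit 0) (nat_lit 0) (nat_lit 1) (Sb.cons (nat_lit 4) (nat_lit 1) (nat_lit 1) Sb.nil)) (Bl.r Y2_2_1_0 (nat_lit 0) Bl.nil)) (Sl.cons (Sd.mk (nat_lit 4) (nat_lit 4) (nat_lit 4) (nat_lit 2) (Sb.cons (nat_lit 0) (nat_lit 0) (nat_lit 2) Sb.nil) Bl.nil) Sl.nil))))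
noncomputable def C2_3 : Cd := (Cd.mk (nat_lit 0) (nat_lit 8) (nat_lit 263) (nat_lit 0) (nat_lit 0) (nat_lit 0) (nat_lit 0) Sl.nil)
noncomputable def SI2_4 : Nat := (nat_lit 0x14050100400c0200400)
noncomputable def SW2_4 : Nat := (nat_lit 0x2801000e006001000c000001)
noncomputable def RV2_4 : Nat := (nat_lit 0xa04005204000204003204002088002088003204001a04004)
noncomputable def CO2_4 : Nat := (nat_lit 0x3290203280202b04202b002025584016644010042001102)
noncomputable def Y2_4_1_2 : Nat := (nat_lit 0x8)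
noncomputable def Y2_4_3_4 : Nat := (nat_lit 0x18)
noncomputable def C2_4 : Cd := (Cd.mk (nat_lit 8) (nat_lit 4) (nat_lit 4369) SI2_4 SW2_4 RV2_4 CO2_4 (Sl.cons (Sd.mk (nat_lit 0) (nat_lit 0) (nat_lit 0) (nat_lit 1) (Sb.cons (nat_lit 4) (nat_lit 0) (nat_lit 1) Sb.nil) Bl.nil) (Sl.cons (Sd.mk (nat_lit 4) (nat_lit 4) (nat_lit 1) (nat_lit 1) (Sb.cons (nat_lit 0) (nat_lit 0) (nat_lit 1) Sb.nil) (Bl.r Y2_4_1_2 (nat_lit 2) Bl.nil)) (Sl.cons (Sd.mk (nat_lit 5) (nat_lit 4) (nat_lit 2) (nat_lit 1) (Sb.cons (nat_lit 8) (nat_lit 0) (nat_lit 1) Sb.nil) (Bl.c Y2_4_1_2 (nat_lit 2) (nat_lit 1) Bl.nil)) (Sl.cons (Sd.mk (nat_lit 9) (nat_lit 8) (nat_lit 3) (nat_lit 1) (Sb.cons (nat_lit 4) (nat_lit 0) (nat_lit 1) Sb.nil) (Bl.r Y2_4_3_4 (nat_lit 4) Bl.nil)) (Sl.cons (Sd.mk (nat_lit 10) (nat_lit 8) (nat_lit 4) (nat_lit 2) (Sb.cons (nat_lit 12) (nat_lit 0) (nat_lit 2) Sb.nil) (Bl.c Y2_4_3_4 (nat_lit 2) (nat_lit 3) Bl.nil)) (Sl.cons (Sd.mk (nat_lit 12) (nat_lit 12) (nat_lit 6) (nat_lit 2) (Sb.cons (nat_lit 8) (nat_lit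 0) (nat_lit 2) Sb.nil) Bl.nil) Sl.nil)))))))
noncomputable def CL2 : Cl := (Cl.cons C2_0 (Cl.cons C2_1 (Cl.cons C2_2 (Cl.cons C2_3 (Cl.cons C2_4 Cl.nil)))))
noncomputable def AL2_0 : Nat := (nat_lit 0)
noncomputable def A42_0 : Nat := (nat_lit 0)
noncomputable def IX2_0 : Nat := (nat_lit 0)
noncomputable def OL2_0 : Nat := (nat_lit 0)
noncomputable def AL2_1 : Nat := (nat_lit 0)
noncomputable def A42_1 : Nat := (nat_lit 0)
noncomputable def IX2_1 : Nat := (nat_lit 0)
noncomputable def OL2_1 : Nat := (nat_lit 0)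
noncomputable def AL2_2 : Nat := (nat_lit 0x1edba)
noncomputable def A42_2 : Nat := (nat_lit 0xcaa)
noncomputable def IX2_2 : Nat := (nat_lit 0x500000000000040000000000000000000000000000000000000030000000000000000000000000200000000000000000000000001000000000000000000000000000000000000000)
noncomputable def OL2_2 : Nat := (nat_lit 0x160028003800500060004)
noncomputable def AL2_3 : Nat := (nat_lit 0)
noncomputable def A42_3 : Nat := (nat_lit 0)
noncomputable def IX2_3 : Nat := (nat_lit 0)
noncomputable def OL2_3 : Nat := (nat_lit 0)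
noncomputable def AL2_4 : Nat := (nat_lit 0xd0385830304e01)
noncomputable def A42_4 : Nat := (nat_lit 0x50001820204001)
noncomputable def IX2_4 : Nat := (nat_lit 0x7000000000000000000000000060000000000000000000000000000000000000000000000000000000000000000000000000000000000000000000000000000000000000000000000000000000000000000000000000000000000000000000000000000000000000000000000000000000000000005000000000000400000000000000000000000000000000000000000000000000000000000000000000000000000300000000000000000000000000000000000000000000000000000000000000000000000000000000000000000000000000000002000000000000000000000000000000000000000000000000000000000000000000000000000000000000000000100000000000000000000000000000000000000000000000000000000000000000000000000000000000000000000000000000000000000000000000000000000000000000000000000000000000000000000000000000000000000)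
noncomputable def OL2_4 : Nat := (nat_lit 0x1b00340048008c00e8015001c0000)
noncomputable def TL2 : Tl := (Tl.cons (Tr.mk AL2_0 A42_0 IX2_0 OL2_0) (Tl.cons (Tr.mk AL2_1 A42_1 IX2_1 OL2_1) (Tl.cons (Tr.mk AL2_2 A42_2 IX2_2 OL2_2) (Tl.cons (Tr.mk AL2_3 A42_3 IX2_3 OL2_3) (Tl.cons (Tr.mk AL2_4 A42_4 IX2_4 OL2_4) Tl.nil)))))
noncomputable def ZL2_0 : Zl := (Zl.cons (nat_lit 0) (nat_lit 0) (nat_lit 0) (Zl.cons (nat_lit 0) (nat_lit 0) (nat_lit 0) (Zl.cons (nat_lit 4) (nat_lit 0) (nat_lit 2) (Zl.cons (nat_lit 0) (nat_lit 0) (nat_lit 0) (Zl.cons (nat_lit 1) (nat_lit 2) (nat_lit 1) Zl.nil)))))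
noncomputable def ZZ2 : ZZ := (ZZ.cons ZL2_0 ZZ.nil)
def wf0_0 : wfC (nat_lit 40) (nat_lit 2) C0_0 = true := by decide +kernel
def pl0_0 : plCk (nat_lit 40) (nat_lit 2) (nat_lit 11) (nat_lit 0) (nat_lit 0) (nat_lit 7) (nat_lit 5) (nat_lit 4) (nat_lit 0) nl0 CL0 = true := by decide +kernel
def wf0_1 : wfC (nat_lit 40) (nat_lit 2) C0_1 = true := by decide +kernel
def pl0_1 : plCk (nat_lit 40) (nat_lit 2) (nat_lit 11) (nat_lit 0) (nat_lit 0) (nat_lit 7) (nat_lit 5) (nat_lit 4) (nat_lit 1) nl0 CL0 = true := by decide +kernel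
def wf0_2 : wfC (nat_lit 40) (nat_lit 2) C0_2 = true := by decide +kernel
def pl0_2 : plCk (nat_lit 40) (nat_lit 2) (nat_lit 11) (nat_lit 0) (nat_lit 0) (nat_lit 7) (nat_lit 5) (nat_lit 4) (nat_lit 2) nl0 CL0 = true := by decide +kernel
def wf0_3 : wfC (nat_lit 40) (nat_lit 2) C0_3 = true := by decide +kernel
def pl0_3 : plCk (nat_lit 40) (nat_lit 2) (nat_lit 11) (nat_lit 0) (nat_lit 0) (nat_lit 7) (nat_lit 5) (nat_lit 4) (nat_lit 3) nl0 CL0 = true := by decide +kernel
def wf0_4 : wfC (nat_lit 40) (nat_lit 2) C0_4 = true := by decide +kernel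
def pl0_4 : plCk (nat_lit 40) (nat_lit 2) (nat_lit 11) (nat_lit 0) (nat_lit 0) (nat_lit 7) (nat_lit 5) (nat_lit 4) (nat_lit 4) nl0 CL0 = true := by decide +kernel
def ti0_0 : tileCk (nat_lit 40) (nat_lit 2) (nat_lit 1) (nat_lit 1) (nat_lit 31) (nat_lit 11) (nat_lit 5) ZL0_0 CL0 = true := by decide +kernel
def zl0_0 : zlOK (nat_lit 31) ZL0_0 = true := by decide +kernel
def tc0_0 : tiCov (nat_lit 1) (nat_lit 0) ZZ0 C0_0 = true := by decide +kernel
def tc0_1 : tiCov (nat_lit 1) (nat_lit 1) ZZ0 C0_1 = true := by decide +kernel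
def tc0_2 : tiCov (nat_lit 1) (nat_lit 2) ZZ0 C0_2 = true := by decide +kernel
def tc0_3 : tiCov (nat_lit 1) (nat_lit 3) ZZ0 C0_3 = true := by decide +kernel
def tc0_4 : tiCov (nat_lit 1) (nat_lit 4) ZZ0 C0_4 = true := by decide +kernel
def wf1_0 : wfC (nat_lit 16) (nat_lit 2) C1_0 = true := by decide +kernel
def rf1_0 : rfCk (nat_lit 40) (nat_lit 2) (nat_lit 16) (nat_lit 2) (nat_lit 9) (nat_lit 0) (nat_lit 0) TL1 CL0 CL1 = true := by decide +kernel
def sc1_0 : stCov (nat_lit 1) (nat_lit 0) Rl.nil C1_0 = true := by decide +kernel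
def wf1_1 : wfC (nat_lit 16) (nat_lit 2) C1_1 = true := by decide +kernel
def rf1_1 : rfCk (nat_lit 40) (nat_lit 2) (nat_lit 16) (nat_lit 2) (nat_lit 9) (nat_lit 0) (nat_lit 1) TL1 CL0 CL1 = true := by decide +kernel
def st1_1_0 : starCk (nat_lit 16) (nat_lit 2) (nat_lit 1) (nat_lit 1) (nat_lit 2) (nat_lit 5) (nat_lit 1) C1_1 = true := by decide +kernel
def sc1_1 : stCov (nat_lit 0) (nat_lit 5) (Rl.cons (nat_lit 5) (nat_lit 2) Rl.nil) C1_1 = true := by decide +kernel
def wf1_2 : wfC (nat_lit 16) (nat_lit 2) C1_2 = true := by decide +kernel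
def rf1_2 : rfCk (nat_lit 40) (nat_lit 2) (nat_lit 16) (nat_lit 2) (nat_lit 9) (nat_lit 0) (nat_lit 2) TL1 CL0 CL1 = true := by decide +kernel
def st1_2_0 : starCk (nat_lit 16) (nat_lit 2) (nat_lit 1) (nat_lit 1) (nat_lit 5) (nat_lit 9) (nat_lit 16) C1_2 = true := by decide +kernel
def sc1_2 : stCov (nat_lit 1) (nat_lit 9) (Rl.cons (nat_lit 9) (nat_lit 5) Rl.nil) C1_2 = true := by decide +kernel
def wf1_4 : wfC (nat_lit 16) (nat_lit 2) C1_4 = true := by decide +kernel
def rf1_4 : rfCk (nat_lit 40) (nat_lit 2) (nat_lit 16) (nat_lit 2) (nat_lit 9) (nat_lit 0) (nat_lit 4) TL1 CL0 CL1 = true := by decide +kernel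
def st1_4_0 : starCk (nat_lit 16) (nat_lit 2) (nat_lit 1) (nat_lit 1) (nat_lit 5) (nat_lit 14) (nat_lit 16) C1_4 = true := by decide +kernel
def sc1_4 : stCov (nat_lit 1) (nat_lit 14) (Rl.cons (nat_lit 14) (nat_lit 5) Rl.nil) C1_4 = true := by decide +kernel
def wf2_2 : wfC (nat_lit 3) (nat_lit 2) C2_2 = true := by decide +kernel
def rf2_2 : rfCk (nat_lit 16) (nat_lit 2) (nat_lit 3) (nat_lit 2) (nat_lit 9) (nat_lit 0) (nat_lit 2) TL2 CL1 CL2 = true := by decide +kernel
def wf2_4 : wfC (nat_lit 3) (nat_lit 2) C2_4 = true := by decide +kernel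
def rf2_4 : rfCk (nat_lit 16) (nat_lit 2) (nat_lit 3) (nat_lit 2) (nat_lit 9) (nat_lit 0) (nat_lit 4) TL2 CL1 CL2 = true := by decide +kernel
def ti2_0 : tileCk (nat_lit 3) (nat_lit 2) (nat_lit 1) (nat_lit 1) (nat_lit 3) (nat_lit 11) (nat_lit 5) ZL2_0 CL2 = true := by decide +kernel
def zl2_0 : zlOK (nat_lit 3) ZL2_0 = true := by decide +kernel
def tc2_2 : tiCov (nat_lit 1) (nat_lit 2) ZZ2 C2_2 = true := by decide +kernel
def tc2_4 : tiCov (nat_lit 1) (nat_lit 4) ZZ2 C2_4 = true := by decide +kernel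
def de2_2 : deadCk (nat_lit 3) (nat_lit 2) C2_2 = true := by decide +kernel
def de2_4 : deadCk (nat_lit 3) (nat_lit 2) C2_4 = true := by decide +kernel
def sc0_0 : stCov (nat_lit 1) (nat_lit 0) (Rl.cons (nat_lit 0) (nat_lit 19) Rl.nil) C0_0 = true := by decide +kernel
def sc0_1 : stCov (nat_lit 0) (nat_lit 0) (Rl.cons (nat_lit 0) (nat_lit 56) Rl.nil) C0_1 = true := by decide +kernel
def sc0_2 : stCov (nat_lit 0) (nat_lit 0) (Rl.cons (nat_lit 0) (nat_lit 24) Rl.nil) C0_2 = true := by decide +kernel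
def sc0_3 : stCov (nat_lit 0) (nat_lit 0) (Rl.cons (nat_lit 0) (nat_lit 15) Rl.nil) C0_3 = true := by decide +kernel
def sc0_4 : stCov (nat_lit 0) (nat_lit 0) (Rl.cons (nat_lit 0) (nat_lit 188) Rl.nil) C0_4 = true := by decide +kernel
def wf1_3 : wfC (nat_lit 16) (nat_lit 2) C1_3 = true := by decide +kernel
def rf1_3 : rfCk (nat_lit 40) (nat_lit 2) (nat_lit 16) (nat_lit 2) (nat_lit 9) (nat_lit 0) (nat_lit 3) TL1 CL0 CL1 = true := by decide +kernel
def zl1_0 : zlOK (nat_lit 66) ZL1_0 = true := by decide +kernel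
def sc1_3 : stCov (nat_lit 0) (nat_lit 0) Rl.nil C1_3 = true := by decide +kernel
def tc1_0 : tiCov (nat_lit 1) (nat_lit 0) ZZ1 C1_0 = true := by decide +kernel
def tc1_1 : tiCov (nat_lit 1) (nat_lit 1) ZZ1 C1_1 = true := by decide +kernel
def tc1_2 : tiCov (nat_lit 1) (nat_lit 2) ZZ1 C1_2 = true := by decide +kernel
def tc1_3 : tiCov (nat_lit 1) (nat_lit 3) ZZ1 C1_3 = true := by decide +kernel
def tc1_4 : tiCov (nat_lit 1) (nat_lit 4) ZZ1 C1_4 = true := by decide +kernel
def wf2_0 : wfC (nat_lit 3) (nat_lit 2) C2_0 = true := by decide +kernel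
def wf2_1 : wfC (nat_lit 3) (nat_lit 2) C2_1 = true := by decide +kernel
def wf2_3 : wfC (nat_lit 3) (nat_lit 2) C2_3 = true := by decide +kernel
def rf2_0 : rfCk (nat_lit 16) (nat_lit 2) (nat_lit 3) (nat_lit 2) (nat_lit 9) (nat_lit 0) (nat_lit 0) TL2 CL1 CL2 = true := by decide +kernel
def rf2_1 : rfCk (nat_lit 16) (nat_lit 2) (nat_lit 3) (nat_lit 2) (nat_lit 9) (nat_lit 0) (nat_lit 1) TL2 CL1 CL2 = true := by decide +kernel
def rf2_3 : rfCk (nat_lit 16) (nat_lit 2) (nat_lit 3) (nat_lit 2) (nat_lit 9) (nat_lit 0) (nat_lit 3) TL2 CL1 CL2 = true := by decide +kernel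
def sc2_0 : stCov (nat_lit 1) (nat_lit 0) Rl.nil C2_0 = true := by decide +kernel
def sc2_1 : stCov (nat_lit 0) (nat_lit 0) Rl.nil C2_1 = true := by decide +kernel
def sc2_2 : stCov (nat_lit 0) (nat_lit 0) (Rl.cons (nat_lit 0) (nat_lit 6) Rl.nil) C2_2 = true := by decide +kernel
def sc2_3 : stCov (nat_lit 0) (nat_lit 0) Rl.nil C2_3 = true := by decide +kernel
def sc2_4 : stCov (nat_lit 0) (nat_lit 0) (Rl.cons (nat_lit 0) (nat_lit 8) Rl.nil) C2_4 = true := by decide +kernel
def tc2_0 : tiCov (nat_lit 1) (nat_lit 0) ZZ2 C2_0 = true := by decide +kernel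
def tc2_1 : tiCov (nat_lit 1) (nat_lit 1) ZZ2 C2_1 = true := by decide +kernel
def tc2_3 : tiCov (nat_lit 1) (nat_lit 3) ZZ2 C2_3 = true := by decide +kernel
def de2_0 : deadCk (nat_lit 3) (nat_lit 2) C2_0 = true := by decide +kernel
def de2_1 : deadCk (nat_lit 3) (nat_lit 2) C2_1 = true := by decide +kernel
def de2_3 : deadCk (nat_lit 3) (nat_lit 2) C2_3 = true := by decide +kernel

end Pool.Agent.NNr.R11_5_8_9
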